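import Mathlib

set_option autoImplicit false

namespace Pool.Agent.H3KD

open MvPolynomial TensorProduct

theorem lin_of_basis {L : Type} [Field L] [CharZero L] {R : Type} [CommRing R] [IsDomain R]
    [Algebra R L] [FaithfulSMul R L] {τ : Type} (y : τ → L) (hy : IsTranscendenceBasis R y) :
    LinearIndependent L (fun i => KaehlerDifferential.D R L (y i)) := by
  let : Algebra (MvPolynomial τ R) L := (aeval y).toAlgebra
  have hmap : ∀ p : MvPolynomial τ R, algebraMap (MvPolynomial τ R) L p = aeval y p := fun p => rfl
  have : IsScalarTower R (MvPolynomial τ R) L := by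
    refine IsScalarTower.of_algebraMap_eq fun r => ?_
    rw [hmap, MvPolynomial.algebraMap_eq, aeval_C]
  have hinj : Function.Injective (algebraMap (MvPolynomial τ R) L) := hy.1
  have : FaithfulSMul (MvPolynomial τ R) L := (faithfulSMul_iff_algebraMap_injective _ _).mpr hinj
  have halg : Algebra.IsAlgebraic (MvPolynomial τ R) L := by
    have := hy.isAlgebraic
    refine Algebra.IsAlgebraic.of_ringHom_of_comp_eq (S := Algebra.adjoin R (Set.range y)) (B := L)
      (f := hy.1.aevalEquiv.toRingHom) (g := RingHom.id L) hy.1.aevalEquiv.surjective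
      Function.injective_id ?_
    ext p
    · simp [hmap]
    · simp [hmap]
  let : Algebra (FractionRing (MvPolynomial τ R)) L := FractionRing.liftAlgebra _ _
  have : IsScalarTower (MvPolynomial τ R) (FractionRing (MvPolynomial τ R)) L :=
    FractionRing.isScalarTower_liftAlgebra _ _
  have : Algebra.IsAlgebraic (FractionRing (MvPolynomial τ R)) L :=
    (IsFractionRing.comap_isAlgebraic_iff (A := MvPolynomial τ R)).mp halg
  have : CharZero (FractionRing (MvPolynomial τ R)) :=
    (algebraMap (FractionRing (MvPolynomial τ R)) L).charZero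
  have : Algebra.FormallyEtale (FractionRing (MvPolynomial τ R)) L :=
    Algebra.FormallyEtale.of_isSeparable _ _
  have : Algebra.FormallyEtale (MvPolynomial τ R) (FractionRing (MvPolynomial τ R)) :=
    Algebra.FormallyEtale.of_isLocalization (nonZeroDivisors (MvPolynomial τ R))
  have : Algebra.FormallyEtale (MvPolynomial τ R) L :=
    Algebra.FormallyEtale.comp (MvPolynomial τ R) (FractionRing (MvPolynomial τ R)) L
  have hb := ((KaehlerDifferential.mvPolynomialBasis R τ).baseChange L).linearIndependent
  have h2 := hb.map' (KaehlerDifferential.tensorKaehlerEquivOfFormallyEtale R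
    (MvPolynomial τ R) L).toLinearMap (LinearEquiv.ker _)
  have h3 : (fun i => KaehlerDifferential.D R L (y i)) =
      ((KaehlerDifferential.tensorKaehlerEquivOfFormallyEtale R
        (MvPolynomial τ R) L).toLinearMap ∘
        ((KaehlerDifferential.mvPolynomialBasis R τ).baseChange L)) := by
    funext i
    simp [hmap]
  rw [h3]
  exact h2

theorem lin_of_alg {L : Type} [Field L] [CharZero L] (A : Subring L) {ι : Type} [Finite ι]
    (x : ι → L) (h : AlgebraicIndependent A x) :
    LinearIndependent L (fun i => KaehlerDifferential.D A L (x i)) := by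
  obtain ⟨t, ht, hb⟩ := exists_isTranscendenceBasis_superset (R := A) (s := Set.range x)
    ((algebraicIndependent_subtype_range h.injective).2 h)
  have h1 := lin_of_basis (R := A) ((↑) : t → L) hb
  exact h1.comp (fun i : ι => (⟨x i, ht ⟨i, rfl⟩⟩ : t))
    (fun i j hij => h.injective (congrArg Subtype.val hij))

end Pool.Agent.H3KD
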