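import Mathlib

set_option autoImplicit false

namespace Pool.Agent.H3KD

open MvPolynomial

theorem D_aeval {L : Type} [Field L] {R : Type} [CommRing R] [Algebra R L] {ι : Type} [Fintype ι]
    (x : ι → L) (p : MvPolynomial ι R) :
    KaehlerDifferential.D R L (aeval x p) =
      ∑ i, aeval x (pderiv i p) • KaehlerDifferential.D R L (x i) := by
  classical
  induction p using MvPolynomial.induction_on with
  | C a => simp
  | add p q hp hq => simp [hp, hq, add_smul, Finset.sum_add_distrib]
  | mul_X p j hp =>
    rw [map_mul, Derivation.leibniz, hp, aeval_X]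
    have h1 : ∀ i, pderiv i (p * X j) = (if i = j then p else 0) + X j * pderiv i p := by
      intro i
      rw [Derivation.leibniz, pderiv_X, Pi.single_apply]
      by_cases hij : i = j
      · subst hij; simp [smul_eq_mul]
      · have hji : ¬ j = i := fun h => hij h.symm
        simp [smul_eq_mul, hij, hji]
    simp only [h1, map_add, map_mul, aeval_X, add_smul, Finset.sum_add_distrib]
    congr 1
    · rw [Finset.sum_eq_single j]
      · simp
      · intro i _ hi
        simp [hi]
      · intro h; exact absurd (Finset.mem_univ j) h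
    · rw [Finset.smul_sum]
      refine Finset.sum_congr rfl fun i _ => ?_
      rw [mul_smul]

theorem totalDegree_pderiv_lt {R : Type} [CommRing R] {ι : Type} (p : MvPolynomial ι R) (i : ι)
    (h : pderiv i p ≠ 0) : (pderiv i p).totalDegree < p.totalDegree := by
  classical
  obtain ⟨m, hm, hmax⟩ := Finset.exists_mem_eq_sup (pderiv i p).support
    (by rwa [Finset.nonempty_iff_ne_empty, ne_eq, MvPolynomial.support_eq_empty])
    (fun s : ι →₀ ℕ => s.sum fun _ e => e)
  have h1 : (pderiv i p).totalDegree = m.sum fun _ e => e := hmax
  rw [MvPolynomial.mem_support_iff, coeff_pderiv] at hm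
  have h2 : coeff (m + Finsupp.single i 1) p ≠ 0 := by
    intro h0; rw [h0] at hm; simp at hm
  have h3 := MvPolynomial.le_totalDegree (MvPolynomial.mem_support_iff.mpr h2)
  have h4 : ((m + Finsupp.single i 1).sum fun _ e => e) = (m.sum fun _ e => e) + 1 := by
    rw [Finsupp.sum_add_index' (fun _ => rfl) (fun _ _ _ => rfl), Finsupp.sum_single_index rfl]
  rw [h1]
  omega

theorem exists_pderiv_ne {R : Type} [CommRing R] [IsDomain R] [CharZero R] {ι : Type}
    (p : MvPolynomial ι R) (h : ∀ i, pderiv i p = 0) : p = C (coeff 0 p) := by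
  classical
  ext m
  rw [coeff_C]
  split_ifs with hm
  · rw [hm]
  · obtain ⟨i, hi⟩ : ∃ i, m i ≠ 0 := by
      by_contra hcon
      push Not at hcon
      exact hm (Finsupp.ext fun i => (hcon i).symm)
    have h1 := congrArg (coeff (m - Finsupp.single i 1)) (h i)
    rw [coeff_pderiv, coeff_zero] at h1
    have h2 : m - Finsupp.single i 1 + Finsupp.single i 1 = m := by
      refine tsub_add_cancel_of_le ?_
      rw [Finsupp.single_le_iff]
      omega
    rw [h2] at h1
    rcases mul_eq_zero.mp h1 with h3 | h3
    · exact h3
    · exfalso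
      have h4 : (((m - Finsupp.single i 1 : ι →₀ ℕ) i + 1 : ℕ) : R) = 0 := by
        push_cast; exact h3
      exact Nat.succ_ne_zero _ (Nat.cast_eq_zero.mp h4)

theorem alg_of_lin {L : Type} [Field L] [CharZero L] (A : Subring L) {ι : Type} [Finite ι]
    (x : ι → L) (h : LinearIndependent L (fun i => KaehlerDifferential.D A L (x i))) :
    AlgebraicIndependent A x := by
  classical
  have := Fintype.ofFinite ι
  have : CharZero A := (algebraMap A L).charZero
  rw [algebraicIndependent_iff]
  intro p
  induction hd : p.totalDegree using Nat.strong_induction_on generalizing p with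
  | _ d ih =>
    intro hp
    have h1 := D_aeval (R := A) x p
    rw [hp, map_zero] at h1
    have h2 : ∀ i, aeval x (pderiv i p) = 0 :=
      Fintype.linearIndependent_iff.mp h (fun i => aeval x (pderiv i p)) h1.symm
    have h3 : ∀ i, pderiv i p = 0 := by
      intro i
      by_contra hne
      exact hne (ih _ (by rw [← hd]; exact totalDegree_pderiv_lt p i hne) _ rfl (h2 i))
    have h4 := exists_pderiv_ne p h3
    rw [h4, aeval_C] at hp
    have h5 : coeff 0 p = 0 := Subtype.ext hp
    rw [h4, h5, C_0]

end Pool.Agent.H3KD
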